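import Mathlib

namespace Pool.Agent.Results.MP_c90a8c_co.Cycle

open Finset

variable {n : ℕ}

def area (γ : Fin n → ℕ) : ℕ := ∑ i, γ i - #{i | 0 < γ i}

def dinv (γ : Fin n → ℕ) (π : Fin n → ℕ+) : ℕ :=
  #{p : Fin n × Fin n | p.1 < p.2 ∧ γ p.1 = γ p.2 ∧ π p.1 > π p.2} +
    #{p : Fin n × Fin n | p.1 < p.2 ∧ γ p.2 = γ p.1 + 1 ∧ π p.1 < π p.2}

/-- the exponent vector of the monomial `x^π` -/
noncomputable def content (π : Fin n → ℕ+) : ℕ+ →₀ ℕ := ∑ i, Finsupp.single (π i) 1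

/-- the pairs of words that contribute `x^α q^a t^d` to `L v`; the letter 1 of `v` is `true` -/
def Words (v : Fin n → Bool) (α : ℕ+ →₀ ℕ) (a d : ℕ) : Set ((Fin n → ℕ) × (Fin n → ℕ+)) :=
  {w | (∀ i, w.1 i = 0 ↔ v i = true) ∧ content w.2 = α ∧ area w.1 = a ∧ dinv w.1 w.2 = d}

/-- the link symmetric function, a power series in `x` over `ℤ[[q,t]]`, where `q = X 0` and
`t = X 1` -/
noncomputable def L (v : Fin n → Bool) : MvPowerSeries ℕ+ (MvPowerSeries (Fin 2) ℤ) :=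
  fun α e => ((Words v α (e 0) (e 1)).ncard : ℤ)

lemma area_eq (γ : Fin n → ℕ) : area γ = ∑ i, (γ i - 1) := by
  rw [area, card_filter]
  refine (Nat.eq_sub_of_add_eq ?_).symm
  rw [← sum_add_distrib]
  exact sum_congr rfl fun i _ => by split_ifs <;> omega

lemma fin (v : Fin n → Bool) (α : ℕ+ →₀ ℕ) (a d : ℕ) : (Words v α a d).Finite := by
  refine ((Set.Finite.pi' fun _ : Fin n => Set.finite_le_nat (a + 1)).prod
    (Set.Finite.pi' fun _ : Fin n => α.support.finite_toSet)).subset ?_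
  rintro ⟨γ, π⟩ ⟨-, rfl, rfl, -⟩
  refine ⟨fun i => ?_, fun i => ?_⟩
  · have := single_le_sum (f := fun i => γ i - 1) (fun _ _ => Nat.zero_le _) (mem_univ i)
    simp only [area_eq, Set.mem_ofPred_eq] at this ⊢
    omega
  · have := single_le_sum (f := fun j => Finsupp.single (π j) 1 (π i))
      (fun _ _ => Nat.zero_le _) (mem_univ i)
    simp only [mem_coe, Finsupp.mem_support_iff, content, Finsupp.finsetSum_apply]
    simp only [Finsupp.single_eq_same] at this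
    omega

lemma dinv_cyc (γ : Fin n → ℕ) (π : Fin n → ℕ+) (g : ℕ) (p : ℕ+) :
    dinv (Fin.snoc γ (g + 1)) (Fin.snoc π p) = dinv (Fin.cons g γ) (Fin.cons p π) := by
  simp only [dinv, card_filter, Fintype.sum_prod_type]
  conv_lhs => simp only [Fin.sum_univ_castSucc]
  conv_rhs => simp only [Fin.sum_univ_succ]
  have h1 : ∀ i : Fin n, ¬ Fin.last n < i.castSucc := fun i => (Fin.castSucc_lt_last i).not_gt
  have h2 : ∀ i : Fin n, ¬ i.succ < 0 := fun i => Fin.not_lt_zero _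
  simp only [Fin.snoc_castSucc, Fin.snoc_last, Fin.cons_succ, Fin.cons_zero, h1, h2, lt_irrefl,
    Fin.castSucc_lt_castSucc_iff, Fin.succ_lt_succ_iff, Fin.castSucc_lt_last, Fin.succ_pos,
    false_and, true_and, if_false, sum_const_zero, sum_add_distrib, add_zero, zero_add,
    add_left_inj, gt_iff_lt]
  ring

def cyc (w : (Fin (n + 1) → ℕ) × (Fin (n + 1) → ℕ+)) : (Fin (n + 1) → ℕ) × (Fin (n + 1) → ℕ+) :=
  (Fin.snoc (Fin.tail w.1) (w.1 0 + 1), Fin.snoc (Fin.tail w.2) (w.2 0))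

lemma cyc_inj : Function.Injective (cyc (n := n)) := by
  rintro ⟨γ, π⟩ ⟨δ, ρ⟩ h
  simp only [cyc, Prod.mk.injEq, Fin.snoc_inj, add_left_inj] at h
  ext1
  · rw [← Fin.cons_self_tail γ, h.1.1, h.1.2, Fin.cons_self_tail]
  · rw [← Fin.cons_self_tail π, h.2.1, h.2.2, Fin.cons_self_tail]

lemma split (v : Fin n → Bool) (α : ℕ+ →₀ ℕ) (a d : ℕ) :
    Words (Fin.snoc v false) α a d = cyc '' (Words (Fin.cons true v) α a d ∪
      {w | w ∈ Words (Fin.cons false v) α (a - 1) d ∧ 1 ≤ a}) := by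
  have key : ∀ (γ : Fin n → ℕ) (π : Fin n → ℕ+) (g : ℕ) (p : ℕ+),
      ((Fin.snoc γ (g + 1), Fin.snoc π p) ∈ Words (Fin.snoc v false) α a d ↔
      (Fin.cons g γ, Fin.cons p π) ∈ Words (Fin.cons true v) α a d ∪
        {w | w ∈ Words (Fin.cons false v) α (a - 1) d ∧ 1 ≤ a}) := fun γ π g p => by
    simp only [Words, Set.mem_union, Set.mem_ofPred_eq, dinv_cyc, area_eq, content]
    conv_lhs => simp only [Fin.sum_univ_castSucc, Fin.forall_fin_succ']
    conv_rhs => simp only [Fin.sum_univ_succ, Fin.forall_fin_succ]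
    simp only [Fin.snoc_castSucc, Fin.snoc_last, Fin.cons_succ, Fin.cons_zero,
      add_comm (Finsupp.single p 1)]
    generalize ∑ i, (γ i - 1) = s
    grind
  ext ⟨γ, π⟩
  constructor
  · intro h
    have h0 : γ (Fin.last n) ≠ 0 := by simpa using h.1 (Fin.last n)
    obtain ⟨g, hg⟩ := Nat.exists_eq_succ_of_ne_zero h0
    have e : (γ, π) = (Fin.snoc (Fin.init γ) (g + 1), Fin.snoc (Fin.init π) (π (Fin.last n))) := by
      rw [show g + 1 = γ (Fin.last n) from hg.symm, Fin.snoc_init_self, Fin.snoc_init_self]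
    rw [e] at h ⊢
    exact ⟨_, (key _ _ _ _).1 h, by simp [cyc]⟩
  · rintro ⟨⟨δ, ρ⟩, h, e⟩
    rw [← e]
    exact (key _ _ _ _).2 (by simpa only [Fin.cons_self_tail] using h)

theorem result : (∀ (n : ℕ) (v : Fin n → Bool) (α : ℕ+ →₀ ℕ) (a d : ℕ), (Words v α a d).Finite) ∧
    ∀ (n : ℕ) (v : Fin n → Bool), L (Fin.snoc v false : Fin (n + 1) → Bool) =
      L (Fin.cons true v : Fin (n + 1) → Bool) +
        MvPowerSeries.C (MvPowerSeries.X 0) * L (Fin.cons false v : Fin (n + 1) → Bool) := by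
  refine ⟨fun _ => fin, fun n v => ?_⟩
  ext α e
  rw [map_add, map_add, MvPowerSeries.coeff_C_mul, MvPowerSeries.X,
    MvPowerSeries.coeff_monomial_mul]
  simp only [MvPowerSeries.coeff_apply, L]
  rw [split, Set.ncard_image_of_injective _ cyc_inj, Set.ncard_union_eq
    (Set.disjoint_left.2 fun w h1 h2 => by simpa using (h2.1.1 0).1 ((h1.1 0).2 rfl))
    (fin _ _ _ _) ((fin _ _ _ _).subset fun w h => h.1)]
  by_cases h : 1 ≤ e 0 <;> simp [h]

end Pool.Agent.Results.MP_c90a8c_co.Cycle
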